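import Pool.Agent.Helper15.RK.GoalsF

/-! # Packet FRD: the conclusion of the front end in an arbitrary parametrization -/

open Complex Metric Set Filter Topology MeasureTheory
open scoped ContDiff ComplexConjugate ComplexOrder Manifold Matrix

namespace Pool.Agent.Helper40.RK

open Pool.Agent.Helper95.Lin Pool.Agent.Helper16.Abund Pool.Agent.Helper92.Orb
  Pool.Agent.Helper10.SP Pool.Agent.Helper95.RK Pool.Agent.Helper15.RK

universe u v

/-! ## Germs -/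

section germs

variable {n : ℕ}

theorem gcd_congr (l : Fin n) {f g : Cn n → ℂ} {x : Cn n} (h : f =ᶠ[𝓝 x] g) :
    cd l f x = cd l g x := by
  unfold cd
  rw [h.fderiv_eq]

theorem gcdb_congr (l : Fin n) {f g : Cn n → ℂ} {x : Cn n} (h : f =ᶠ[𝓝 x] g) :
    cdb l f x = cdb l g x := by
  unfold cdb
  rw [h.fderiv_eq]

theorem gLM_congr {f g : Cn n → ℝ} {x : Cn n} (h : f =ᶠ[𝓝 x] g) : LM f x = LM g x := by
  ext j k
  unfold LM
  simp only [Matrix.of_apply]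
  refine gcd_congr j ?_
  filter_upwards [h.eventuallyEq_nhds] with y hy
  refine gcdb_congr k ?_
  filter_upwards [hy] with z hz
  rw [hz]

theorem glev_congr {f g : Cn n → ℝ} {x : Cn n} (h : f =ᶠ[𝓝 x] g) (e : Cn n) :
    lev f x e = lev g x e := by
  have h1 : ∀ u : Cn n, (fun y => fderiv ℝ f y u) =ᶠ[𝓝 x] (fun y => fderiv ℝ g y u) := by
    intro u
    filter_upwards [h.eventuallyEq_nhds] with y hy
    rw [hy.fderiv_eq]
  unfold lev hess
  rw [(h1 e).fderiv_eq, (h1 (I • e)).fderiv_eq]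

theorem gDv_congr (v : Cn n → Cn n) {f g : Cn n → ℂ} {x : Cn n} (h : f =ᶠ[𝓝 x] g) :
    Dv v f x = Dv v g x := by
  unfold Dv
  exact Finset.sum_congr rfl fun j _ => by rw [gcd_congr j h]

theorem gDvb_congr (v : Cn n → Cn n) {f g : Cn n → ℂ} {x : Cn n} (h : f =ᶠ[𝓝 x] g) :
    Dvb v f x = Dvb v g x := by
  unfold Dvb
  exact Finset.sum_congr rfl fun j _ => by rw [gcdb_congr j h]

theorem gDD_congr {k : ℕ} (v : Fin k → Cn n → Cn n) (α β : Fin k) {f g : Cn n → ℂ} {x : Cn n}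
    (h : f =ᶠ[𝓝 x] g) : DD v α β f x = DD v α β g x := by
  unfold DD
  refine gDv_congr _ ?_
  filter_upwards [h.eventuallyEq_nhds] with y hy
  exact gDvb_congr _ hy

variable {k : ℕ} {g g' : Cn n → Matrix (Fin n) (Fin n) ℂ} (v : Fin k → Cn n → Cn n)

theorem ggram_congr {x : Cn n} (h : g x = g' x) : gram g v x = gram g' v x := by
  unfold gram
  rw [h]

theorem gTRN_congr {x : Cn n} (h : g =ᶠ[𝓝 x] g') (α γ δ : Fin k) :
    TRN g v x α γ δ = TRN g' v x α γ δ := by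
  have h1 : ∀ α β : Fin k, (fun y => gram g v y α β) =ᶠ[𝓝 x] fun y => gram g' v y α β := by
    intro α β
    filter_upwards [h] with y hy
    rw [ggram_congr v hy]
  unfold TRN
  rw [gDv_congr _ (h1 γ δ), gDv_congr _ (h1 α δ)]

theorem gCRV_congr {x : Cn n} (h : g =ᶠ[𝓝 x] g') (α β γ δ : Fin k) :
    CRV g v x α β γ δ = CRV g' v x α β γ δ := by
  have h1 : ∀ α β : Fin k, (fun y => gram g v y α β) =ᶠ[𝓝 x] fun y => gram g' v y α β := by
    intro α β
    filter_upwards [h] with y hy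
    rw [ggram_congr v hy]
  unfold CRV
  rw [gDD_congr _ _ _ (h1 γ δ), ggram_congr v h.eq_of_nhds]
  congr 1
  refine Finset.sum_congr rfl fun p _ => Finset.sum_congr rfl fun q _ => ?_
  rw [gDv_congr _ (h1 γ q), gDvb_congr _ (h1 p δ)]

end germs

section guf

variable {b k : ℕ} {Φ Φ' : Cn (b + k) → ℝ}
  {g g' : Cn (b + k) → Matrix (Fin (b + k)) (Fin (b + k)) ℂ}

theorem guf_congr (w : Fin b → Cn (b + k)) (v : Fin k → Cn (b + k) → Cn (b + k)) {x : Cn (b + k)}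
    (h : g =ᶠ[𝓝 x] g') (hΦ : Φ =ᶠ[𝓝 x] Φ') : uf Φ g w v =ᶠ[𝓝 x] uf Φ' g' w v := by
  filter_upwards [h, hΦ.eventuallyEq_nhds] with y hy hΦy
  unfold uf dens mdet
  rw [ggram_congr v hy, hΦy.eq_of_nhds, gLM_congr hΦy]

theorem kfr_congr {W W' : Set (Cn (b + k))} {L : Cn (b + k) →ₗ[ℂ] Cn k} {w : Fin b → Cn (b + k)}
    {v : Fin k → Cn (b + k) → Cn (b + k)} (h : KFr Φ W L w v) (hW : IsOpen W') (hs : W' ⊆ W)
    (he : ∀ y ∈ W', Φ y = Φ' y) : KFr Φ' W' L w v := by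
  have h1 : ∀ y ∈ W', Φ =ᶠ[𝓝 y] Φ' := by
    intro y hy
    filter_upwards [hW.mem_nhds hy] with z hz using he z hz
  refine ⟨hW, ?_, ?_, ?_, ?_, ?_, ?_, h.lin, h.Lw⟩
  · exact (h.smP.mono hs).congr fun y hy => (he y hy).symm
  · intro y hy e
    rw [← glev_congr (h1 y hy)]
    exact h.psd y (hs hy) e
  · exact fun α => (h.smv α).mono hs
  · exact fun y hy α => h.norm y (hs hy) α
  · intro y hy α j
    rw [← gLM_congr (h1 y hy)]
    exact h.ker y (hs hy) α j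
  · intro y hy e hl
    rw [← glev_congr (h1 y hy)] at hl
    exact h.only y (hs hy) e hl

end guf

section man

variable {n : ℕ} {M : Type v} [TopologicalSpace M] [ChartedSpace (Fin n → ℂ) M]

theorem glpot_congr (v : M → ℝ) {ψ ψ' : Cn n → M} {x : Cn n} (h : ψ =ᶠ[𝓝 x] ψ') :
    lpot n v ψ x = lpot n v ψ' x := by
  have h1 : jac n ψ x = jac n ψ' x := by
    unfold jac
    rw [h.mfderiv_eq]
  unfold lpot
  rw [h1, h.eq_of_nhds]

theorem gpm_congr (g : M → Matrix (Fin n) (Fin n) ℂ) {ψ ψ' : Cn n → M} {x : Cn n}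
    (h : ψ =ᶠ[𝓝 x] ψ') : pm n g ψ x = pm n g ψ' x := by
  have h1 : dmap n ψ x = dmap n ψ' x := by
    unfold dmap
    rw [h.mfderiv_eq]
  unfold pm dvec
  rw [h1, h.eq_of_nhds]

end man

/-- FRD. -/
theorem frd (hWIRT : S_WIRT) (hMTK : S_MTK.{u, v}) (hCVT : S_CVT.{v}) (hFRA1 : S_FRA1.{u})
    (hFRA2 : S_FRA2.{u}) (hFRB : S_FRB.{u}) (hFRC : S_FRC.{u}) : S_FRD.{u, v} := by
  intro b k G M _ _ _ _ _ _ _ h g v hk hD hF V ψ hψ W L w e hfr hWV
  -- the conclusion near each point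
  have key : ∀ x ∈ W, ∃ (E : Cn (b + k) → M) (T : Set (Cn (b + k))) (r : ℝ), 0 < r ∧
      ball x r ⊆ T ∧ EqOn E ψ (ball x r) ∧ Flt (lpot (b + k) v E) (pm (b + k) g E) T ∧
      ∃ (R : G → Cn (b + k) → Cn (b + k) → Prop)
        (H : Cn (b + k) → Matrix (Fin (b + k)) (Fin (b + k)) ℂ),
        FrT T R H (lpot (b + k) v E) (pm (b + k) g E) := by
    intro x hx
    obtain ⟨hg, hgi, hc⟩ := hF
    rcases hc with hc | ⟨hK, hc⟩
    · obtain ⟨r, T, E, hr, -, hrT, hE, hP, hT⟩ := hMTK hk hD hg hgi V ψ hψ x (hWV hx)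
      exact ⟨E, T, r, hr, hrT, hE, hFRA1 hT ((hCVT T E hP).1 hc), _, _, hT⟩
    · have hD' : DataK b k G M g v := ⟨hD.act, hD.proper, hK, hgi, hD.met, hD.vinv, hD.rank⟩
      obtain ⟨r, T, E, hr, -, hrT, hE, hP, hT⟩ := hMTK hk hD' hg hgi V ψ hψ x (hWV hx)
      exact ⟨E, T, r, hr, hrT, hE, hFRA2 hT ((hCVT T E hP).2 hc), _, _, hT⟩
  have key2 : ∀ x ∈ W, (∀ α, Tm (e α) x = 0) ∧
      (∀ α γ δ, TRN (pm (b + k) g ψ) e x α γ δ = 0) ∧
      (∀ α β γ δ, CRV (pm (b + k) g ψ) e x α β γ δ = 0) ∧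
      ∀ α, Dv (e α) (fun y => ((uf (lpot (b + k) v ψ) (pm (b + k) g ψ) w e y : ℝ) : ℂ)) x = 0 := by
    intro x hx
    obtain ⟨E, T, r, hr, hrT, hE, hflt, R, H, hT⟩ := key x hx
    have hgerm : ∀ y ∈ ball x r, E =ᶠ[𝓝 y] ψ := by
      intro y hy
      filter_upwards [isOpen_ball.mem_nhds hy] with z hz using hE hz
    have hfr' : KFr (lpot (b + k) v E) (W ∩ ball x r) L w e :=
      kfr_congr hfr (hfr.isOpen.inter isOpen_ball) inter_subset_left
        fun y hy => (glpot_congr v (hgerm y hy.2)).symm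
    have hxm : x ∈ W ∩ ball x r := ⟨hx, mem_ball_self hr⟩
    have hsub : W ∩ ball x r ⊆ T := inter_subset_right.trans hrT
    have hpm : pm (b + k) g E =ᶠ[𝓝 x] pm (b + k) g ψ := by
      filter_upwards [isOpen_ball.mem_nhds (mem_ball_self hr)] with y hy
      exact gpm_congr g (hgerm y hy)
    have hlp : lpot (b + k) v E =ᶠ[𝓝 x] lpot (b + k) v ψ := by
      filter_upwards [isOpen_ball.mem_nhds (mem_ball_self hr)] with y hy
      exact glpot_congr v (hgerm y hy)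
    obtain ⟨h1, h2⟩ := hflt _ L w e hfr' hsub x hxm
    refine ⟨h1, ?_, ?_, ?_⟩
    · intro α γ δ
      rw [← gTRN_congr e hpm]
      exact hFRC hT hflt _ L w e hfr' hsub x hxm α γ δ
    · intro α β γ δ
      rw [← gCRV_congr e hpm]
      exact h2 α β γ δ
    · intro α
      have h3 := hFRB hT hflt _ L w e hfr' hsub x hxm α
      have h4 : (fun y => ((uf (lpot (b + k) v E) (pm (b + k) g E) w e y : ℝ) : ℂ)) =ᶠ[𝓝 x]
          fun y => ((uf (lpot (b + k) v ψ) (pm (b + k) g ψ) w e y : ℝ) : ℂ) := by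
        filter_upwards [guf_congr w e hpm hlp] with y hy
        rw [hy]
      rw [← gDv_congr (e α) h4]
      exact h3
  refine ⟨?_, fun x hx => (key2 x hx).2⟩
  intro α
  have h1 : ∀ j, DifferentiableOn ℂ (fun y => e α y j) W := by
    intro j
    have hs : ContDiffOn ℝ ∞ (fun y => e α y j) W := contDiffOn_pi.1 (hfr.smv α) j
    refine (hWIRT W hfr.isOpen _ _ hs hs).2.2.2.2.2.1 ?_
    intro l x hx
    have h2 := congrFun (congrFun ((key2 x hx).1 α) j) l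
    exact h2
  exact differentiableOn_pi.2 h1

end Pool.Agent.Helper40.RK
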