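import Pool.Agent.Helper36.RK.GoalsG
import Pool.Agent.Helper95.RK.Basics

/-! # Packet RK-KLIM: the limit of the averages is of type (1,1) and positive -/

open Complex Metric Set Filter Topology MeasureTheory Matrix
open scoped ContDiff ComplexConjugate ComplexOrder Manifold

namespace Pool.Agent.Helper40.RK

open Pool.Agent.Helper95.Lin Pool.Agent.Helper16.Abund Pool.Agent.Helper92.Orb Pool.Agent.Helper10.SP
  Pool.Agent.Helper95.RK Pool.Agent.Helper36.RK

theorem hermi_fbl {b k : ℕ} (A : Matrix (Fin (b + k)) (Fin (b + k)) ℂ) (u v : Cn k) :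
    hermi A (ptK 0 u) (ptK 0 v) = hermi (fbl A) u v := by
  unfold hermi fbl
  simp only [Fin.sum_univ_add, ptK_castAdd, ptK_natAdd, Pi.zero_apply, mul_zero, zero_mul,
    Finset.sum_const_zero, zero_add, map_zero, Matrix.submatrix_apply]

theorem hermi_star {k : ℕ} (M : Matrix (Fin k) (Fin k) ℂ) (x : Cn k) :
    star x ⬝ᵥ (M *ᵥ x) = hermi M (star x) (star x) := by
  unfold hermi dotProduct Matrix.mulVec dotProduct
  refine Finset.sum_congr rfl fun i _ => ?_
  rw [Finset.mul_sum]
  refine Finset.sum_congr rfl fun j _ => ?_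
  simp only [Pi.star_apply, RCLike.star_def, Complex.conj_conj]
  ring

theorem hermi_single {k : ℕ} (M : Matrix (Fin k) (Fin k) ℂ) (p q : Fin k) :
    hermi M (Pi.single p 1) (Pi.single q 1) = M p q := by
  unfold hermi
  rw [Finset.sum_eq_single p, Finset.sum_eq_single q]
  · simp
  · intro j _ hj
    simp [hj]
  · intro h
    exact absurd (Finset.mem_univ q) h
  · intro i _ hi
    refine Finset.sum_eq_zero fun j _ => ?_
    simp [hi]
  · intro h
    exact absurd (Finset.mem_univ p) h

theorem norm_single {k : ℕ} (p : Fin k) : ‖(Pi.single p 1 : Cn k)‖ ≤ 1 := by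
  refine (pi_norm_le_iff_of_nonneg zero_le_one).2 fun i => ?_
  by_cases h : i = p
  · subst h
    simp
  · simp [h]

/-- Real part of a hermitian form. -/
theorem hermi_conj {k : ℕ} {M : Matrix (Fin k) (Fin k) ℂ} (h : M.IsHermitian) (u : Cn k) :
    (hermi M u u).im = 0 := by
  have h1 : conj (hermi M u u) = hermi M u u := by
    unfold hermi
    rw [map_sum]
    simp only [map_sum, map_mul, Complex.conj_conj]
    rw [Finset.sum_comm]
    refine Finset.sum_congr rfl fun i _ => Finset.sum_congr rfl fun j _ => ?_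
    have h2 : conj (M j i) = M i j := h.apply i j
    rw [h2]
    ring
  exact Complex.conj_eq_iff_im.1 h1

theorem posDef_of_hermi {k : ℕ} {M : Matrix (Fin k) (Fin k) ℂ} (h : M.IsHermitian)
    (h1 : ∀ u : Cn k, u ≠ 0 → 0 < (hermi M u u).re) : M.PosDef := by
  refine Matrix.PosDef.of_dotProduct_mulVec_pos h fun x hx => ?_
  rw [hermi_star]
  have h2 : star x ≠ 0 := fun h0 => hx (by simpa using congrArg star h0)
  rw [Complex.lt_def]
  exact ⟨h1 _ h2, (hermi_conj h _).symm⟩

theorem klim (hBDG : S_BDG) : S_KLIM := by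
  intro b k N c R P Φ Hf C H hA hH lam hP χ nn hχ hχ0 hχ1 z hz E hE
  obtain ⟨K, hK0, hB⟩ := hBDG c R P Φ Hf C H hA hH
  have hR : (2 : ℝ) ≤ R := by
    have := hA.Rge
    have := hA.Cge
    linarith
  have hzR : z ∈ Bd c R := by
    obtain ⟨i, hi⟩ := mem_iUnion.1 hz
    exact mem_iUnion.2 ⟨i, ball_subset_ball hR hi⟩
  -- the matrix function
  set F : (Fin (2 * k) → ℝ) → Matrix (Fin k) (Fin k) ℂ :=
    fun x => fbl (H (ptK z (Lx lam z x))) with hF
  have hmem : ∀ x, ptK z (Lx lam z x) ∈ tubeK k (Bd c R) := by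
    intro x
    show base (ptK z (Lx lam z x)) ∈ Bd c R
    rw [base_ptK]
    exact hzR
  have hcL : Continuous fun x : Fin (2 * k) → ℝ => Lx lam z x := by
    unfold Lx
    refine continuous_finsetSum _ fun j _ => ?_
    exact (Complex.continuous_ofReal.comp (continuous_apply j)).smul continuous_const
  have hcpt : Continuous fun x : Fin (2 * k) → ℝ => ptK z (Lx lam z x) := by
    have h1 : (fun x : Fin (2 * k) → ℝ => ptK z (Lx lam z x)) =
        fun x => ptL b k (z, Lx lam z x) := rfl
    rw [h1]
    exact (ptL b k).continuous.comp (continuous_const.prodMk hcL)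
  have hcF : ∀ p q, Continuous fun x => F x p q := by
    intro p q
    have h1 : ContinuousOn (fun x => H x (Fin.natAdd b p) (Fin.natAdd b q))
        (tubeK k (Bd c R)) := (hH.smooth _ _).continuousOn
    exact h1.comp_continuous hcpt hmem
  have hFh : ∀ x, (F x).IsHermitian := fun x => fbl_isHermitian (hH.posDef _ (hmem x)).isHermitian
  have hFb : ∀ x p q, ‖F x p q‖ ≤ K := by
    intro x p q
    have h1 := (hB z hz (Lx lam z x) (Pi.single p 1) (Pi.single q 1)).1
    rw [hermi_fbl, hermi_single] at h1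
    calc ‖F x p q‖ ≤ K * ‖(Pi.single p 1 : Cn k)‖ * ‖(Pi.single q 1 : Cn k)‖ := h1
      _ ≤ K * 1 * 1 := by
          gcongr
          · exact norm_single p
          · exact norm_single q
      _ = K := by ring
  have hFp : ∀ x u, ‖u‖ ^ 2 / K ≤ (hermi (F x) u u).re := by
    intro x u
    have h1 := (hB z hz (Lx lam z x) u u).2.1
    rw [hermi_fbl] at h1
    rw [div_le_iff₀ hK0, mul_comm]
    exact h1
  have hχc : Continuous χ := hχ.1.continuous
  have hχs : HasCompactSupport χ := hχ.2
  have hχi : Integrable χ := hχc.integrable_of_hasCompactSupport hχs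
  -- the integrals
  set KK : ℕ → Fin k → Fin k → ℂ := fun n p q => ∫ y, (χ y : ℂ) * F ((nn n : ℝ) • y) p q with hKK
  have hint : ∀ n p q, Integrable fun y => (χ y : ℂ) * F ((nn n : ℝ) • y) p q := by
    intro n p q
    refine Continuous.integrable_of_hasCompactSupport ?_ ?_
    · exact (Complex.continuous_ofReal.comp hχc).mul ((hcF p q).comp (continuous_const_smul _))
    · refine HasCompactSupport.mul_right ?_
      exact hχs.comp_left (g := fun r : ℝ => (r : ℂ)) Complex.ofReal_zero
  have hKb : ∀ n p q, ‖KK n p q‖ ≤ K := by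
    intro n p q
    calc ‖KK n p q‖ ≤ ∫ y, ‖(χ y : ℂ) * F ((nn n : ℝ) • y) p q‖ := norm_integral_le_integral_norm _
      _ ≤ ∫ y, χ y * K := by
          refine integral_mono (hint n p q).norm (hχi.mul_const K) fun y => ?_
          show ‖(χ y : ℂ) * F ((nn n : ℝ) • y) p q‖ ≤ χ y * K
          rw [norm_mul, Complex.norm_real, Real.norm_of_nonneg (hχ0 y)]
          exact mul_le_mul_of_nonneg_left (hFb _ _ _) (hχ0 y)
      _ = K := by rw [integral_mul_const, hχ1, one_mul]
  have hKb' : ∀ n, KK n ∈ closedBall (0 : Fin k → Fin k → ℂ) K := by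
    intro n
    rw [mem_closedBall_zero_iff]
    refine (pi_norm_le_iff_of_nonneg hK0.le).2 fun p => ?_
    exact (pi_norm_le_iff_of_nonneg hK0.le).2 fun q => hKb n p q
  obtain ⟨Kl, -, ns, hns, hlim⟩ := tendsto_subseq_of_bounded isBounded_closedBall hKb'
  have hlim' : ∀ p q, Tendsto (fun n => KK (ns n) p q) atTop (𝓝 (Kl p q)) := by
    intro p q
    exact (tendsto_pi_nhds.1 (tendsto_pi_nhds.1 hlim p) q)
  -- sesquilinear expressions
  have hsq : ∀ n (u v : Cn k), hermi (Matrix.of (KK n)) u v =
      ∫ y, (χ y : ℂ) * hermi (F ((nn n : ℝ) • y)) u v := by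
    intro n u v
    unfold hermi
    have h1 : ∀ y, (χ y : ℂ) * ∑ i, ∑ j, F ((nn n : ℝ) • y) i j * u i * conj (v j) =
        ∑ i, ∑ j, ((χ y : ℂ) * F ((nn n : ℝ) • y) i j) * (u i * conj (v j)) := by
      intro y
      rw [Finset.mul_sum]
      refine Finset.sum_congr rfl fun i _ => ?_
      rw [Finset.mul_sum]
      refine Finset.sum_congr rfl fun j _ => ?_
      ring
    simp only [h1]
    rw [integral_finsetSum _ fun i _ => integrable_finsetSum _ fun j _ =>
      (hint n i j).mul_const _]
    refine Finset.sum_congr rfl fun i _ => ?_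
    rw [integral_finsetSum _ fun j _ => (hint n i j).mul_const _]
    refine Finset.sum_congr rfl fun j _ => ?_
    rw [integral_mul_const]
    simp only [hKK, Matrix.of_apply]
    ring
  have hlh : ∀ u v : Cn k, Tendsto (fun n => hermi (Matrix.of (KK (ns n))) u v) atTop
      (𝓝 (hermi (Matrix.of Kl) u v)) := by
    intro u v
    unfold hermi
    refine tendsto_finsetSum _ fun i _ => tendsto_finsetSum _ fun j _ => ?_
    exact ((hlim' i j).mul_const _).mul_const _
  have hihm : ∀ n (u v : Cn k), Integrable fun y => (χ y : ℂ) * hermi (F ((nn n : ℝ) • y)) u v := by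
    intro n u v
    refine Continuous.integrable_of_hasCompactSupport ?_ ?_
    · refine (Complex.continuous_ofReal.comp hχc).mul ?_
      unfold hermi
      refine continuous_finsetSum _ fun i _ => continuous_finsetSum _ fun j _ => ?_
      exact (((hcF i j).comp (continuous_const_smul _)).mul continuous_const).mul continuous_const
    · refine HasCompactSupport.mul_right ?_
      exact hχs.comp_left (g := fun r : ℝ => (r : ℂ)) Complex.ofReal_zero
  refine ⟨Matrix.of Kl, posDef_of_hermi ?_ ?_, ?_⟩
  · -- Hermitian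
    ext p q
    have h1 : ∀ n, conj (KK n q p) = KK n p q := by
      intro n
      simp only [hKK]
      rw [← integral_conj]
      refine integral_congr_ae (Eventually.of_forall fun y => ?_)
      show conj ((χ y : ℂ) * F ((nn n : ℝ) • y) q p) = _
      rw [map_mul, Complex.conj_ofReal]
      congr 1
      exact (hFh ((nn n : ℝ) • y)).apply p q
    have h2 : Tendsto (fun n => conj (KK (ns n) q p)) atTop (𝓝 (conj (Kl q p))) :=
      (Complex.continuous_conj.tendsto _).comp (hlim' q p)
    simp only [h1] at h2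
    exact tendsto_nhds_unique h2 (hlim' p q)
  · intro u hu
    have h1 : ∀ n, ‖u‖ ^ 2 / K ≤ (hermi (Matrix.of (KK (ns n))) u u).re := by
      intro n
      rw [hsq]
      have h2 : (∫ y, (χ y : ℂ) * hermi (F ((nn (ns n) : ℝ) • y)) u u).re =
          ∫ y, ((χ y : ℂ) * hermi (F ((nn (ns n) : ℝ) • y)) u u).re :=
        (integral_re (hihm _ u u)).symm
      rw [h2]
      calc ‖u‖ ^ 2 / K = ∫ y, χ y * (‖u‖ ^ 2 / K) := by
            rw [integral_mul_const, hχ1, one_mul]
        _ ≤ _ := by
            refine integral_mono (hχi.mul_const _) (hihm _ u u).re fun y => ?_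
            show χ y * (‖u‖ ^ 2 / K) ≤ ((χ y : ℂ) * hermi (F ((nn (ns n) : ℝ) • y)) u u).re
            rw [Complex.re_ofReal_mul]
            exact mul_le_mul_of_nonneg_left (hFp _ _) (hχ0 y)
    have h3 : Tendsto (fun n => (hermi (Matrix.of (KK (ns n))) u u).re) atTop
        (𝓝 (hermi (Matrix.of Kl) u u).re) :=
      (Complex.continuous_re.tendsto _).comp (hlh u u)
    have h4 : ‖u‖ ^ 2 / K ≤ (hermi (Matrix.of Kl) u u).re :=
      ge_of_tendsto h3 (Eventually.of_forall h1)
    have h5 : 0 < ‖u‖ := norm_pos_iff.2 hu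
    exact lt_of_lt_of_le (by positivity) h4
  · intro j l
    have h1 : ∀ n, TN H lam χ z (nn n) j l = (hermi (Matrix.of (KK n)) (lam j z) (lam l z)).im := by
      intro n
      rw [hsq]
      have h2 : (∫ y, (χ y : ℂ) * hermi (F ((nn n : ℝ) • y)) (lam j z) (lam l z)).im =
          ∫ y, ((χ y : ℂ) * hermi (F ((nn n : ℝ) • y)) (lam j z) (lam l z)).im :=
        (integral_im (hihm _ _ _)).symm
      rw [h2]
      unfold TN
      refine integral_congr_ae (Eventually.of_forall fun y => ?_)
      show χ y * fL H lam z ((nn n : ℝ) • y) j l =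
        ((χ y : ℂ) * hermi (F ((nn n : ℝ) • y)) (lam j z) (lam l z)).im
      rw [Complex.im_ofReal_mul]
      unfold fL
      rw [hermi_fbl]
    have h2 : Tendsto (fun n => TN H lam χ z (nn (ns n)) j l) atTop
        (𝓝 (hermi (Matrix.of Kl) (lam j z) (lam l z)).im) := by
      simp only [h1]
      exact (Complex.continuous_im.tendsto _).comp (hlh _ _)
    exact tendsto_nhds_unique ((hE j l).comp hns.tendsto_atTop) h2

end Pool.Agent.Helper40.RK
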