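import Pool.Agent.Helper40.RK.GoalsE
import Pool.Agent.Helper95.RK.Basics

/-! # LAMS: assembly of the periods -/

open Complex Metric Set Filter Topology Matrix
open scoped ContDiff ComplexConjugate

namespace Pool.Agent.Helper40.RK

open Pool.Agent.Helper95.Lin Pool.Agent.Helper10.SP Pool.Agent.Helper95.RK Pool.Agent.Helper36.RK

/-! ## The real basis of `ℂᵏ` -/

section basis

variable {k : ℕ}

/-- the real basis -/
noncomputable def eb (j : Fin (2 * k)) : Cn k :=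
  Pi.single (finProdFinEquiv.symm j).2 (if (finProdFinEquiv.symm j).1 = 0 then 1 else I)

/-- the real coordinates -/
noncomputable def co (w : Cn k) (j : Fin (2 * k)) : ℝ :=
  if (finProdFinEquiv.symm j).1 = 0 then (w (finProdFinEquiv.symm j).2).re
  else (w (finProdFinEquiv.symm j).2).im

/-- the vector with given real coordinates -/
noncomputable def Wr (r : Fin (2 * k) → ℝ) : Cn k := ∑ j, (r j : ℂ) • eb j

theorem Wr_apply (r : Fin (2 * k) → ℝ) (p : Fin k) :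
    Wr r p = (r (finProdFinEquiv (0, p)) : ℂ) + (r (finProdFinEquiv (1, p)) : ℂ) * I := by
  unfold Wr
  rw [Finset.sum_apply, ← (finProdFinEquiv (m := 2) (n := k)).sum_comp]
  rw [Fintype.sum_prod_type]
  simp only [Fin.sum_univ_two, eb, Equiv.symm_apply_apply, Pi.smul_apply, smul_eq_mul]
  have h1 : ∀ x : ℂ, ∀ f : Fin k → ℂ, ∑ q, f q * (Pi.single q x : Cn k) p = f p * x := by
    intro x f
    rw [Finset.sum_eq_single p]
    · rw [Pi.single_eq_same]
    · intro q _ hq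
      rw [Pi.single_eq_of_ne hq.symm, mul_zero]
    · intro h
      exact absurd (Finset.mem_univ p) h
  rw [h1, h1]
  simp

theorem Wr_co (w : Cn k) : Wr (co w) = w := by
  funext p
  rw [Wr_apply]
  simp [co, Complex.re_add_im]

theorem norm_le_Wr (r : Fin (2 * k) → ℝ) : ‖r‖ ≤ ‖Wr r‖ := by
  refine (pi_norm_le_iff_of_nonneg (norm_nonneg _)).2 fun j => ?_
  obtain ⟨⟨s, p⟩, rfl⟩ := finProdFinEquiv.surjective j
  have h1 := norm_le_pi_norm (Wr r) p
  have h2 := Wr_apply r p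
  have hs : s = 0 ∨ s = 1 := by
    fin_cases s
    · exact Or.inl rfl
    · exact Or.inr rfl
  rcases hs with hs | hs
  · subst hs
    have h3 := Complex.abs_re_le_norm (Wr r p)
    have h4 : (Wr r p).re = r (finProdFinEquiv (0, p)) := by rw [h2]; simp
    rw [h4] at h3
    rw [Real.norm_eq_abs]
    exact h3.trans h1
  · subst hs
    have h3 := Complex.abs_im_le_norm (Wr r p)
    have h4 : (Wr r p).im = r (finProdFinEquiv (1, p)) := by rw [h2]; simp
    rw [h4] at h3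
    rw [Real.norm_eq_abs]
    exact h3.trans h1

theorem Wr_le (r : Fin (2 * k) → ℝ) : ‖Wr r‖ ≤ 2 * ‖r‖ := by
  refine (pi_norm_le_iff_of_nonneg (by positivity)).2 fun p => ?_
  rw [Wr_apply]
  have h1 := norm_le_pi_norm r (finProdFinEquiv (0, p))
  have h2 := norm_le_pi_norm r (finProdFinEquiv (1, p))
  refine (norm_add_le _ _).trans ?_
  rw [norm_mul, Complex.norm_I, mul_one, Complex.norm_real, Complex.norm_real]
  linarith

end basis

theorem lams (hRETN : S_RETNK) (hLAMX : S_LAMXK) (hLTR : S_LTRK) : S_LAMS := by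
  intro b k N c R P Φ Hf C A
  classical
  choose Λ ε K hε hK hadd hsmul hctr hholo hbd hgr using fun i => hLAMX c R P Φ Hf C A i
  have : Nonempty (Fin N) := ⟨⟨0, A.posN⟩⟩
  obtain ⟨i₀, -, hi₀⟩ := Finset.exists_min_image (Finset.univ : Finset (Fin N)) ε
    Finset.univ_nonempty
  obtain ⟨i₁, -, hi₁⟩ := Finset.exists_max_image (Finset.univ : Finset (Fin N)) K
    Finset.univ_nonempty
  set ε₀ : ℝ := ε i₀ with hε₀
  set K₀ : ℝ := K i₁ with hK₀def
  have hK₀ : 0 < K₀ := hK i₁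
  have hbd' : ∀ i w, ∀ x ∈ ball (c i) 3, ‖w‖ ≤ K₀ * ‖Λ i w x‖ ∧ ‖Λ i w x‖ ≤ K₀ * ‖w‖ := by
    intro i w x hx
    have h1 := hi₁ i (Finset.mem_univ _)
    obtain ⟨h2, h3⟩ := hbd i w x hx
    exact ⟨h2.trans (by gcongr), h3.trans (by gcongr)⟩
  have hgr' : ∀ i, ∀ ε > 0, ∃ B : ℝ, ∀ t, NrK c P i 3 ε₀ t → ∀ x ∈ ball (c i) 3,
      ‖t.q x - Λ i (t.q (c i)) x‖ ≤ ε * ‖t.q (c i)‖ + B := by
    intro i δ hδ
    obtain ⟨B, hB⟩ := hgr i δ hδ
    refine ⟨B, fun t ht x hx => hB t ⟨ht.1, fun z hz => ?_⟩ x hx⟩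
    have h1 := hi₀ i (Finset.mem_univ _)
    exact ⟨(ht.2 z hz).1.trans h1, (ht.2 z hz).2.mono h1⟩
  -- the balls are disjoint
  have hdisj : ∀ i j z, z ∈ ball (c i) 3 → z ∈ ball (c j) 3 → i = j := by
    intro i j z hi hj
    by_contra hij
    have h1 := A.sep i j hij
    have h2 := A.Rge
    have h3 := A.Cge
    have h4 : dist (c i) (c j) < 3 + 3 := by
      refine (dist_triangle_left (c i) (c j) z).trans_lt ?_
      exact add_lt_add (mem_ball.1 hi) (mem_ball.1 hj)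
    rw [dist_eq_norm] at h4
    linarith
  have hidx : ∀ z, ∃ i, ∀ j, z ∈ ball (c j) 3 → i = j := by
    intro z
    by_cases hz : ∃ i, z ∈ ball (c i) 3
    · obtain ⟨i, hi⟩ := hz
      exact ⟨i, fun j hj => hdisj i j z hi hj⟩
    · exact ⟨i₀, fun j hj => absurd ⟨j, hj⟩ hz⟩
  choose idx hidx using hidx
  let lam : Fin (2 * k) → Cn b → Cn k := fun j z => Λ (idx z) (eb j) z
  have hlam : ∀ i j, ∀ z ∈ ball (c i) 3, lam j z = Λ i (eb j) z := by
    intro i j z hz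
    simp only [lam, hidx z i hz]
  -- linearity
  have hzero : ∀ i, ∀ z ∈ ball (c i) 3, Λ i 0 z = 0 := by
    intro i z hz
    have h1 := hsmul i 0 0 z hz
    simpa using h1
  have hlin : ∀ i (r : Fin (2 * k) → ℝ), ∀ z ∈ ball (c i) 3,
      Λ i (Wr r) z = ∑ j, (r j : ℂ) • lam j z := by
    intro i r z hz
    have h1 : ∀ s : Finset (Fin (2 * k)), Λ i (∑ j ∈ s, (r j : ℂ) • eb j) z =
        ∑ j ∈ s, (r j : ℂ) • lam j z := by
      intro s
      induction s using Finset.induction_on with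
      | empty => simpa using hzero i z hz
      | insert a s ha ih =>
        rw [Finset.sum_insert ha, Finset.sum_insert ha, hadd i _ _ z hz, hsmul i _ _ z hz, ih,
          hlam i a z hz]
    exact h1 Finset.univ
  have hdec : ∀ i w, ∀ z ∈ ball (c i) 3, Λ i w z = ∑ j, (co w j : ℂ) • lam j z := by
    intro i w z hz
    rw [← hlin i (co w) z hz, Wr_co]
  have hlamd : ∀ j, DifferentiableOn ℂ (lam j) (Bd c 3) := by
    intro j z hz
    obtain ⟨i, hi⟩ := mem_iUnion.1 hz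
    have h1 : DifferentiableAt ℂ (Λ i (eb j)) z :=
      (hholo i (eb j)).differentiableAt (isOpen_ball.mem_nhds hi)
    refine (h1.congr_of_eventuallyEq ?_).differentiableWithinAt
    filter_upwards [isOpen_ball.mem_nhds hi] with y hy
    exact hlam i j y hy
  have hbdd : ∀ z ∈ Bd c 3, ∀ r : Fin (2 * k) → ℝ,
      ‖∑ j, (r j : ℂ) • lam j z‖ ≤ (2 * K₀) * ‖r‖ ∧ ‖r‖ ≤ (2 * K₀) * ‖∑ j, (r j : ℂ) • lam j z‖ := by
    intro z hz r
    obtain ⟨i, hi⟩ := mem_iUnion.1 hz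
    rw [← hlin i r z hi]
    obtain ⟨h1, h2⟩ := hbd' i (Wr r) z hi
    have h3 := Wr_le r
    have h4 := norm_le_Wr r
    refine ⟨h2.trans ?_, h4.trans (h1.trans ?_)⟩
    · calc K₀ * ‖Wr r‖ ≤ K₀ * (2 * ‖r‖) := by gcongr
        _ = 2 * K₀ * ‖r‖ := by ring
    · have h5 : 0 ≤ K₀ * ‖Λ i (Wr r) z‖ := by positivity
      linarith
  refine ⟨lam, ⟨hlamd, ⟨2 * K₀, by positivity, hbdd⟩, ?_⟩, ?_⟩
  · -- transformation
    intro U t ht z hzU hz hgz
    obtain ⟨i, hi⟩ := mem_iUnion.1 hz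
    obtain ⟨j, hj⟩ := mem_iUnion.1 hgz
    obtain ⟨r, hr, hrU, hrm, hw⟩ := hLTR c R P Φ Hf C A Λ ε₀ K₀ (hε i₀) hK₀ hadd hsmul hholo hbd'
      hgr' i j U t ht z hzU hi hj
    choose w' hw' using fun m : Fin (2 * k) => hw (eb m)
    set Q : Matrix (Fin (2 * k)) (Fin (2 * k)) ℝ := Matrix.of fun l m => co (w' m) l with hQ
    have hzi : z ∈ ball z r ∩ ball (c i) 3 :=
      ⟨mem_ball_self hr, ball_subset_ball (by norm_num) hi⟩
    have hrel : ∀ z' ∈ ball z r ∩ ball (c i) 3, ∀ m, t.A z' *ᵥ lam m z' =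
        ∑ l, ((Q l m : ℝ) : ℂ) • lam l (t.g z') := by
      intro z' hz' m
      rw [hlam i m z' hz'.2, hw' m z' hz'.1, hdec j _ _ (hrm hz'.1)]
      rfl
    refine ⟨Q, ball z r ∩ ball (c i) 3, ?_, isOpen_ball.inter isOpen_ball, hzi,
      fun y hy => hrU hy.1, hrel⟩
    intro hdet
    obtain ⟨x, hx0, hx⟩ := Matrix.exists_mulVec_eq_zero_iff.2 hdet
    apply hx0
    have h1 : t.A z *ᵥ (∑ m, (x m : ℂ) • lam m z) = 0 := by
      rw [Matrix.mulVec_sum]
      have h2 : ∀ m, t.A z *ᵥ ((x m : ℂ) • lam m z) =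
          ∑ l, ((Q l m * x m : ℝ) : ℂ) • lam l (t.g z) := by
        intro m
        rw [Matrix.mulVec_smul, hrel z hzi m, Finset.smul_sum]
        refine Finset.sum_congr rfl fun l _ => ?_
        rw [smul_smul]
        congr 1
        push_cast
        ring
      simp only [h2]
      rw [Finset.sum_comm]
      refine Finset.sum_eq_zero fun l _ => ?_
      rw [← Finset.sum_smul]
      have h3 : ∑ m, ((Q l m * x m : ℝ) : ℂ) = (((Q *ᵥ x) l : ℝ) : ℂ) := by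
        rw [← Complex.ofReal_sum]
        rfl
      rw [h3, hx]
      simp
    have h4 : (t.A z).det ≠ 0 := ((A.holo U t ht).2.2.2 z hzU).2
    have h5 : ∑ m, (x m : ℂ) • lam m z = 0 := by
      by_contra h0
      exact h4 (Matrix.exists_mulVec_eq_zero_iff.1 ⟨_, h0, h1⟩)
    have h6 := (hbdd z (mem_iUnion.2 ⟨i, hzi.2⟩) x).2
    rw [h5, norm_zero, mul_zero] at h6
    exact norm_le_zero_iff.1 h6
  · -- the approximation
    intro i δ hδ
    set η : ℝ := min (min δ ε₀) (min 1 (δ / (4 * K₀))) with hη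
    have hη0 : 0 < η := by
      have : 0 < ε₀ := hε i₀
      positivity
    have hη1 : η ≤ δ := (min_le_left _ _).trans (min_le_left _ _)
    have hη2 : η ≤ ε₀ := (min_le_left _ _).trans (min_le_right _ _)
    have hη3 : η ≤ 1 := (min_le_right _ _).trans (min_le_left _ _)
    have hη4 : η ≤ δ / (4 * K₀) := (min_le_right _ _).trans (min_le_right _ _)
    have hη5 : η * K₀ ≤ δ / 4 := by
      rw [le_div_iff₀ (by positivity)] at hη4
      linarith
    obtain ⟨B₁, hB₁⟩ := hRETN c R P Φ Hf C A i η hη0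
    obtain ⟨B₂, hB₂⟩ := hgr' i (δ / 8) (by positivity)
    have hB₁0 : 0 ≤ B₁ := by
      obtain ⟨t, -, ht⟩ := hB₁ 0
      exact (norm_nonneg _).trans ht
    refine ⟨2 * (δ / 8 * B₁ + |B₂| + K₀ * B₁), fun r => ?_⟩
    obtain ⟨t, ht, htq⟩ := hB₁ (Wr r)
    refine ⟨t, ht.1, fun z hz => ⟨(ht.2 z hz).1.trans hη1, (ht.2 z hz).2.mono hη1, ?_⟩⟩
    have ht0 : NrK c P i 3 ε₀ t :=
      ⟨ht.1, fun z hz => ⟨(ht.2 z hz).1.trans hη2, (ht.2 z hz).2.mono hη2⟩⟩
    rw [← hlin i r z hz]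
    have hci : c i ∈ ball (c i) 3 := mem_ball_self (by norm_num)
    have h1 := hB₂ t ht0 z hz
    have h2 : ‖t.q (c i)‖ ≤ ‖Wr r‖ + B₁ := by
      calc ‖t.q (c i)‖ = ‖Wr r + (t.q (c i) - Wr r)‖ := by congr 1; abel
        _ ≤ ‖Wr r‖ + ‖t.q (c i) - Wr r‖ := norm_add_le _ _
        _ ≤ _ := by linarith
    have h3 : Λ i (t.q (c i)) z = Λ i (Wr r) z + Λ i (t.q (c i) - Wr r) z := by
      rw [← hadd i _ _ z hz]
      congr 1
      abel
    have h4 : ‖Λ i (t.q (c i) - Wr r) z‖ ≤ K₀ * B₁ :=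
      ((hbd' i _ z hz).2).trans (by gcongr)
    set D : ℝ := ‖t.q z - Λ i (Wr r) z‖ with hD
    have h5 : D ≤ δ / 8 * ‖Wr r‖ + (δ / 8 * B₁ + |B₂| + K₀ * B₁) := by
      calc D = ‖(t.q z - Λ i (t.q (c i)) z) + Λ i (t.q (c i) - Wr r) z‖ := by
            rw [hD, h3]; congr 1; abel
        _ ≤ ‖t.q z - Λ i (t.q (c i)) z‖ + ‖Λ i (t.q (c i) - Wr r) z‖ := norm_add_le _ _
        _ ≤ (δ / 8 * ‖t.q (c i)‖ + B₂) + K₀ * B₁ := by linarith
        _ ≤ (δ / 8 * (‖Wr r‖ + B₁) + |B₂|) + K₀ * B₁ := by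
            gcongr
            exact le_abs_self _
        _ = _ := by ring
    have hzU : z ∈ ball (c i) 4 := ball_subset_ball (by norm_num) hz
    have h6 : (t.A z).det ≠ 0 := ((A.holo _ t ht.1.1).2.2.2 z hzU).2
    have h7 : t.A z *ᵥ t.q z = t.β z := by
      unfold TriK.q
      rw [Matrix.mulVec_mulVec, Matrix.mul_nonsing_inv _ (isUnit_iff_ne_zero.2 h6),
        Matrix.one_mulVec]
    have h8 : t.β z - Λ i (Wr r) z = (t.A z - 1) *ᵥ t.q z + (t.q z - Λ i (Wr r) z) := by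
      rw [Matrix.sub_mulVec, h7, Matrix.one_mulVec]
      abel
    have h9 : ‖t.q z‖ ≤ D + K₀ * ‖Wr r‖ := by
      calc ‖t.q z‖ = ‖(t.q z - Λ i (Wr r) z) + Λ i (Wr r) z‖ := by congr 1; abel
        _ ≤ D + ‖Λ i (Wr r) z‖ := norm_add_le _ _
        _ ≤ _ := by linarith [(hbd' i (Wr r) z hz).2]
    have hD0 : 0 ≤ D := norm_nonneg _
    have h10 := Wr_le r
    have hW0 : 0 ≤ ‖Wr r‖ := norm_nonneg _
    calc ‖t.β z - Λ i (Wr r) z‖ ≤ ‖(t.A z - 1) *ᵥ t.q z‖ + D := by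
          rw [h8]
          exact norm_add_le _ _
      _ ≤ η * (D + K₀ * ‖Wr r‖) + D := by
          have := (ht.2 z hz).2 (t.q z)
          have h11 : η * ‖t.q z‖ ≤ η * (D + K₀ * ‖Wr r‖) := by gcongr
          linarith
      _ ≤ 2 * D + δ / 4 * ‖Wr r‖ := by nlinarith
      _ ≤ 2 * (δ / 8 * ‖Wr r‖ + (δ / 8 * B₁ + |B₂| + K₀ * B₁)) + δ / 4 * ‖Wr r‖ := by gcongr
      _ = δ / 2 * ‖Wr r‖ + 2 * (δ / 8 * B₁ + |B₂| + K₀ * B₁) := by ring
      _ ≤ δ / 2 * (2 * ‖r‖) + 2 * (δ / 8 * B₁ + |B₂| + K₀ * B₁) := by gcongr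
      _ = _ := by ring

end Pool.Agent.Helper40.RK
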