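import Pool.Agent.Helper36.RK.GoalsI
import Pool.Agent.Helper63.SP.ZZ

/-! # RK-ZZK: the generators that kill the period map form a commutative family -/

open Complex Metric Set Filter Topology MeasureTheory Matrix
open scoped ContDiff ComplexConjugate ComplexOrder Manifold

namespace Pool.Agent.Helper40.RK

open Pool.Agent.Helper95.Lin Pool.Agent.Helper10.SP Pool.Agent.Helper95.RK Pool.Agent.Helper36.RK
open Pool.Agent.Helper63.SP

universe u v

section
variable {b k N m : ℕ}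

lemma sV_add (hDIFP : S_DIFP) {D : Set (Cn b)} {lam : Fin (2 * k) → Cn b → Cn k}
    {Om : Matrix (Fin (2 * k)) (Fin (2 * k)) ℝ} (h : Pol D lam Om) (z u v : Cn b) :
    sV lam Om z (u + v) = sV lam Om z u + sV lam Om z v := by
  have := (hDIFP D lam Om h).2.1 z 1 1 u v
  simpa using this

lemma sV_smul (hDIFP : S_DIFP) {D : Set (Cn b)} {lam : Fin (2 * k) → Cn b → Cn k}
    {Om : Matrix (Fin (2 * k)) (Fin (2 * k)) ℝ} (h : Pol D lam Om) (z : Cn b) (x : ℂ) (u : Cn b) :
    sV lam Om z (x • u) = x • sV lam Om z u := by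
  have := (hDIFP D lam Om h).2.1 z x 0 u 0
  simpa using this

lemma sV_zero (hDIFP : S_DIFP) {D : Set (Cn b)} {lam : Fin (2 * k) → Cn b → Cn k}
    {Om : Matrix (Fin (2 * k)) (Fin (2 * k)) ℝ} (h : Pol D lam Om) (z : Cn b) :
    sV lam Om z 0 = 0 := by
  have := sV_smul hDIFP h z 0 0
  simpa using this

/-- The combinations which kill the period map. -/
noncomputable def KK (hDIFP : S_DIFP) {c : Fin N → Cn b} {P : Set (Cn b) → TriK b k → Prop}
    {lam : Fin (2 * k) → Cn b → Cn k} {Om : Fin N → Matrix (Fin (2 * k)) (Fin (2 * k)) ℝ}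
    (hP : PerK c P lam) (hO : PolK c P lam Om)
    (V : Fin m → Cn b → Cn b) (i : Fin N) : Submodule ℝ (Fin m → ℝ) where
  carrier := {x | ∀ z ∈ ball (c i) 2, sV lam (Om i) z (lc' V x z) = 0}
  add_mem' {x y} hx hy z hz := by
    rw [lc'_add, sV_add hDIFP (polK hP hO i), hx z hz, hy z hz, add_zero]
  zero_mem' z hz := by rw [lc'_zero, sV_zero hDIFP (polK hP hO i)]
  smul_mem' r x hx z hz := by
    rw [lc'_smul, sV_smul hDIFP (polK hP hO i), hx z hz, smul_zero]

lemma mem_KK {hDIFP : S_DIFP} {c : Fin N → Cn b} {P : Set (Cn b) → TriK b k → Prop}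
    {lam : Fin (2 * k) → Cn b → Cn k} {Om : Fin N → Matrix (Fin (2 * k)) (Fin (2 * k)) ℝ}
    {hP : PerK c P lam} {hO : PolK c P lam Om}
    {V : Fin m → Cn b → Cn b} {i : Fin N} {x : Fin m → ℝ} : x ∈ KK hDIFP hP hO V i ↔
      ∀ z ∈ ball (c i) 2, sV lam (Om i) z (lc' V x z) = 0 := Iff.rfl

lemma F_diff (hDIFP : S_DIFP) {c : Fin N → Cn b} {P : Set (Cn b) → TriK b k → Prop}
    {lam : Fin (2 * k) → Cn b → Cn k} {Om : Fin N → Matrix (Fin (2 * k)) (Fin (2 * k)) ℝ}
    (hP : PerK c P lam) (hO : PolK c P lam Om)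
    {V : Fin m → Cn b → Cn b} (hV : ∀ k, DifferentiableOn ℂ (V k) (Bd c 3)) (x : Fin m → ℝ)
    (i : Fin N) (p q : Fin k) :
    DifferentiableOn ℂ (fun z => sV lam (Om i) z (lc' V x z) p q) (ball (c i) 2) := by
  refine (hDIFP _ lam (Om i) (polK hP hO i)).2.2.1 (fun z => lc' V x z) ?_ p q
  exact (lc'_diff hV x).mono ((ball_subset_ball (by norm_num)).trans (ball_Bd c i 3))

/-- The identity theorem for the function on a ball. -/
lemma F_idt (hDIFP : S_DIFP) {c : Fin N → Cn b} {P : Set (Cn b) → TriK b k → Prop}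
    {lam : Fin (2 * k) → Cn b → Cn k} {Om : Fin N → Matrix (Fin (2 * k)) (Fin (2 * k)) ℝ}
    (hP : PerK c P lam) (hO : PolK c P lam Om)
    {V : Fin m → Cn b → Cn b} (hV : ∀ k, DifferentiableOn ℂ (V k) (Bd c 3)) (x : Fin m → ℝ)
    (i : Fin N) {z₀ : Cn b} (hz₀ : z₀ ∈ ball (c i) 2)
    (h : ∀ᶠ z in 𝓝 z₀, sV lam (Om i) z (lc' V x z) = 0) : x ∈ KK hDIFP hP hO V i := by
  refine mem_KK.2 fun y hy => ?_
  ext p q
  exact idt1 isOpen_ball (convex_ball _ _).isPreconnected (F_diff hDIFP hP hO hV x i p q) hz₀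
    (h.mono fun z hz => by rw [hz]; rfl) hy

lemma sandwich {A M : Matrix (Fin k) (Fin k) ℂ} (hA : A.det ≠ 0)
    (h : A * M * A.transpose = 0) : M = 0 := by
  have hu : IsUnit A.det := isUnit_iff_ne_zero.2 hA
  have hu' : IsUnit A.transpose.det := by rwa [Matrix.det_transpose]
  have h1 : A⁻¹ * (A * M * A.transpose) * A.transpose⁻¹ = M := by
    rw [Matrix.mul_assoc A M, Matrix.nonsing_inv_mul_cancel_left _ _ hu,
      Matrix.mul_nonsing_inv_cancel_right _ _ hu']
  rw [← h1, h]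
  simp

/-- The matrix of an arrow maps `K i` onto `K j`. -/
lemma arrK (hBTK : S_BTK) (hDIFP : S_DIFP) {c : Fin N → Cn b} {R : ℝ}
    {P : Set (Cn b) → TriK b k → Prop} {Φ : Cn b → ℝ} {Hf : Cn b → Matrix (Fin k) (Fin k) ℂ}
    {C : ℝ} (hA : AFolK c R P Φ Hf C)
    {lam : Fin (2 * k) → Cn b → Cn k} {Om : Fin N → Matrix (Fin (2 * k)) (Fin (2 * k)) ℝ}
    (hP : PerK c P lam) (hO : PolK c P lam Om) {V : Fin m → Cn b → Cn b}
    (hV : CFamK c P m V) {U : Set (Cn b)} {t : TriK b k} (hPU : P U t) {z : Cn b} (hz : z ∈ U)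
    {i j : Fin N} (hzi : z ∈ ball (c i) 2) (hgj : t.g z ∈ ball (c j) 2)
    {A : Matrix (Fin m) (Fin m) ℝ}
    (hAt : ∀ᶠ z' in 𝓝 z, ∀ k, fderiv ℂ t.g z' (V k z') = ∑ l, ((A l k : ℝ) : ℂ) • V l (t.g z'))
    (x : Fin m → ℝ) : x ∈ KK hDIFP hP hO V i ↔ A.mulVec x ∈ KK hDIFP hP hO V j := by
  obtain ⟨hUo, hUR, ⟨hgd, had, hβd⟩, hga⟩ := hA.holo U t hPU
  have hcont : ContinuousAt t.g z := (hgd.differentiableAt (hUo.mem_nhds hz)).continuousAt
  have key : ∀ᶠ z' in 𝓝 z, (t.A z').det ≠ 0 ∧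
      sV lam (Om j) (t.g z') (lc' V (A.mulVec x) (t.g z')) =
        t.A z' * sV lam (Om i) z' (lc' V x z') * (t.A z').transpose := by
    filter_upwards [hUo.mem_nhds hz, isOpen_ball.mem_nhds hzi,
      hcont.preimage_mem_nhds (isOpen_ball.mem_nhds hgj), hAt] with z' h1 h2 h3 h4
    refine ⟨(hga z' h1).2, ?_⟩
    rw [← push h4 x]
    exact (hBTK c R P Φ Hf C hA lam Om hP hO U t hPU z' h1 i j h2 h3).2.1 _
  constructor
  · intro hx
    have h1 : ∀ᶠ z' in 𝓝 z,
        sV lam (Om j) (t.g z') (lc' V (A.mulVec x) (t.g z')) = 0 := by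
      filter_upwards [key, isOpen_ball.mem_nhds hzi] with z' ⟨_, hq2⟩ h2
      rw [hq2, mem_KK.1 hx z' h2, Matrix.mul_zero, Matrix.zero_mul]
    have h2 := open_ev (p := fun y => sV lam (Om j) y (lc' V (A.mulVec x) y) = 0) hUo hgd hz
      (hA.pot U t hPU z hz).1 h1
    exact F_idt hDIFP hP hO hV.holo _ j hgj h2
  · intro hx
    refine F_idt hDIFP hP hO hV.holo _ i hzi ?_
    filter_upwards [key, hcont.preimage_mem_nhds (isOpen_ball.mem_nhds hgj)] with z'
      ⟨hq, hq2⟩ h2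
    rw [mem_KK.1 hx (t.g z') h2] at hq2
    exact sandwich hq hq2.symm

/-- The balls are disjoint. -/
lemma ball_disj {c : Fin N → Cn b} {R : ℝ}
    {P : Set (Cn b) → TriK b k → Prop} {Φ : Cn b → ℝ} {Hf : Cn b → Matrix (Fin k) (Fin k) ℂ}
    {C : ℝ} (hA : AFolK c R P Φ Hf C) {r : ℝ}
    (hr : r ≤ 3) {z : Cn b} {i j : Fin N} (hi : z ∈ ball (c i) r) (hj : z ∈ ball (c j) r) :
    i = j := by
  by_contra hij
  have h1 := hA.sep i j hij
  have h2 := hA.Rge
  have h3 := hA.Cge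
  rw [mem_ball] at hi hj
  have h4 : ‖c i - c j‖ ≤ dist z (c i) + dist z (c j) := by
    rw [← dist_eq_norm, dist_comm z (c i)]
    exact dist_triangle _ _ _
  linarith

/-- All the `K i` have the same dimension. -/
lemma dim_eq (hBTK : S_BTK) (hDIFP : S_DIFP) {c : Fin N → Cn b} {R : ℝ}
    {P : Set (Cn b) → TriK b k → Prop} {Φ : Cn b → ℝ} {Hf : Cn b → Matrix (Fin k) (Fin k) ℂ}
    {C : ℝ} (hA : AFolK c R P Φ Hf C)
    {lam : Fin (2 * k) → Cn b → Cn k} {Om : Fin N → Matrix (Fin (2 * k)) (Fin (2 * k)) ℝ}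
    (hper : PerK c P lam) (hO : PolK c P lam Om) {V : Fin m → Cn b → Cn b}
    (hV : CFamK c P m V) (i₀ i : Fin N) :
    Module.finrank ℝ (KK hDIFP hper hO V i) = Module.finrank ℝ (KK hDIFP hper hO V i₀) := by
  set d : Fin N → ℕ := fun i => Module.finrank ℝ (KK hDIFP hper hO V i) with hd
  -- arrows preserve the dimension
  have harr : ∀ U t, P U t → ∀ z ∈ U, ∀ i j, z ∈ ball (c i) 2 → t.g z ∈ ball (c j) 2 →
      d i = d j := by
    intro U t hP z hz i j hzi hgj
    obtain ⟨A, U', hAd, hU', hzU', hU'U, hAt⟩ :=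
      hV.trans U t hP z hz (ball_Bd c i 2 hzi) (ball_Bd c j 2 hgj)
    have h1 := arrK hBTK hDIFP hA hper hO hV hP hz hzi hgj (A := A)
      (by filter_upwards [hU'.mem_nhds hzU'] with z' h using hAt z' h)
    have hAu : IsUnit A.det := isUnit_iff_ne_zero.2 hAd
    let e : (Fin m → ℝ) ≃ₗ[ℝ] (Fin m → ℝ) := A.toLinearEquiv' (A.invertibleOfIsUnitDet hAu)
    have he : ∀ x, e x = A.mulVec x := fun x => rfl
    have h2 : (KK hDIFP hper hO V i).map (e : (Fin m → ℝ) →ₗ[ℝ] (Fin m → ℝ)) = KK hDIFP hper hO V j := by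
      ext y
      rw [Submodule.mem_map]
      constructor
      · rintro ⟨x, hx, rfl⟩
        exact (h1 x).1 hx
      · intro hy
        refine ⟨e.symm y, (h1 _).2 ?_, e.apply_symm_apply y⟩
        rw [← he, e.apply_symm_apply]
        exact hy
    have h3 := LinearEquiv.finrank_map_eq e (KK hDIFP hper hO V i)
    rw [h2] at h3
    exact h3.symm
  have hopen : ∀ p : Fin N → Prop, IsOpen {z | ∃ i, z ∈ ball (c i) 2 ∧ p i} := by
    intro p
    have : {z | ∃ i, z ∈ ball (c i) 2 ∧ p i} = ⋃ i, ⋃ (_ : p i), ball (c i) 2 := by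
      ext z
      simp only [mem_ofPred_eq, mem_iUnion, exists_prop]
      exact exists_congr fun i => and_comm
    rw [this]
    exact isOpen_iUnion fun i => isOpen_iUnion fun _ => isOpen_ball
  set S := {z | ∃ i, z ∈ ball (c i) 2 ∧ d i = d i₀} with hS
  have hc : ∀ i, c i ∈ ball (c i) 2 := fun i => mem_ball_self (by norm_num)
  have hSB : S ⊆ Bd c 2 := by
    rintro z ⟨i, hi, _⟩
    exact ball_Bd c i 2 hi
  have hSc : Bd c 2 \ S = {z | ∃ i, z ∈ ball (c i) 2 ∧ ¬ d i = d i₀} := by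
    ext z
    constructor
    · rintro ⟨hz, hzS⟩
      obtain ⟨i, hi⟩ := mem_Bd.1 hz
      exact ⟨i, hi, fun h => hzS ⟨i, hi, h⟩⟩
    · rintro ⟨i, hi, hdi⟩
      refine ⟨ball_Bd c i 2 hi, ?_⟩
      rintro ⟨j, hj, hdj⟩
      have := ball_disj hA (by norm_num) hi hj
      subst this
      exact hdi hdj
  have hinv : ∀ U t, P U t → ∀ z ∈ U, z ∈ Bd c 2 → t.g z ∈ Bd c 2 → (z ∈ S ↔ t.g z ∈ S) := by
    intro U t hP z hz hz2 hg2
    obtain ⟨i, hi⟩ := mem_Bd.1 hz2
    obtain ⟨j, hj⟩ := mem_Bd.1 hg2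
    have h1 := harr U t hP z hz i j hi hj
    constructor
    · rintro ⟨i', hi', hd'⟩
      have := ball_disj hA (by norm_num) hi hi'
      subst this
      exact ⟨j, hj, h1.symm.trans hd'⟩
    · rintro ⟨j', hj', hd'⟩
      have := ball_disj hA (by norm_num) hj hj'
      subst this
      exact ⟨i, hi, h1.trans hd'⟩
  rcases hA.conn S hSB (hopen _) (by rw [hSc]; exact hopen _) hinv with h | h
  · exfalso
    have : c i₀ ∈ S := ⟨i₀, hc i₀, rfl⟩
    rw [h] at this
    exact this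
  · have : c i ∈ S := by
      rw [h]
      exact ball_Bd c i 2 (hc i)
    obtain ⟨j, hj, hdj⟩ := this
    have := ball_disj hA (by norm_num) (hc i) hj
    subst this
    exact hdj

end

lemma InfGenK.congr {b k N : ℕ} {c : Fin N → Cn b} {P : Set (Cn b) → TriK b k → Prop} {i : Fin N}
    {V W : Cn b → Cn b} (h : InfGenK c P i V) (hVW : ∀ z ∈ ball (c i) 3, W z = V z) :
    InfGenK c P i W := by
  obtain ⟨h1, t, σ, h2, h3, h4, h5⟩ := h
  refine ⟨h1.congr hVW, t, σ, h2, h3, h4, fun ε hε => ?_⟩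
  filter_upwards [h5 ε hε] with n hn z hz
  rw [hVW z hz]
  exact hn z hz

theorem zzk (hBTK : S_BTK) (hDIFP : S_DIFP) : S_ZZK := by
  classical
  intro b k N c R P Φ Hf C hA lam Om hper hO m V hV
  have hN : 0 < N := hA.posN
  let i₀ : Fin N := ⟨0, hN⟩
  by_cases hm : Module.finrank ℝ (KK hDIFP hper hO V i₀) = 0
  · right
    intro i x hx
    have h1 : Module.finrank ℝ (KK hDIFP hper hO V i) = 0 := (dim_eq hBTK hDIFP hA hper hO hV i₀ i).trans hm
    have h2 : KK hDIFP hper hO V i = ⊥ := Submodule.finrank_eq_zero.1 h1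
    have h3 : x ∈ KK hDIFP hper hO V i := hx
    rw [h2] at h3
    exact (Submodule.mem_bot ℝ).1 h3
  left
  set m' := Module.finrank ℝ (KK hDIFP hper hO V i₀) with hm'
  let bas := fun i => Module.finBasisOfFinrankEq ℝ (KK hDIFP hper hO V i)
    (dim_eq hBTK hDIFP hA hper hO hV i₀ i)
  let X : Fin N → Fin m' → Fin m → ℝ := fun i k => (bas i k : Fin m → ℝ)
  have hX : ∀ i k, X i k ∈ KK hDIFP hper hO V i := fun i k => (bas i k).2
  have hXi : ∀ i, ∀ y : Fin m' → ℝ, ∑ k, y k • X i k = 0 → y = 0 := by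
    intro i y hy
    have h1 : ∑ k, y k • bas i k = 0 := by
      apply Subtype.ext
      rw [Submodule.coe_sum]
      exact hy
    have h2 := Fintype.linearIndependent_iff.1 (bas i).linearIndependent y h1
    exact funext h2
  have hXs : ∀ i, ∀ x ∈ KK hDIFP hper hO V i, ∃ y : Fin m' → ℝ, x = ∑ k, y k • X i k := by
    intro i x hx
    refine ⟨fun k => (bas i).repr ⟨x, hx⟩ k, ?_⟩
    have h1 := (bas i).sum_repr ⟨x, hx⟩
    have h2 := congrArg (Subtype.val) h1
    rw [Submodule.coe_sum] at h2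
    exact h2.symm
  let V' : Fin m' → Cn b → Cn b := fun k z =>
    ∑ i, if z ∈ ball (c i) 3 then lc' V (X i k) z else 0
  have hV' : ∀ k i, ∀ z ∈ ball (c i) 3, V' k z = lc' V (X i k) z := by
    intro k i z hz
    have h1 : V' k z = if z ∈ ball (c i) 3 then lc' V (X i k) z else 0 := by
      refine Finset.sum_eq_single i (fun j _ hj => ?_) fun h => absurd (Finset.mem_univ i) h
      rw [if_neg]
      intro hzj
      exact hj (ball_disj hA le_rfl hzj hz)
    rw [h1, if_pos hz]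
  have hVev : ∀ k i, ∀ z ∈ ball (c i) 3, V' k =ᶠ[𝓝 z] lc' V (X i k) := by
    intro k i z hz
    filter_upwards [isOpen_ball.mem_nhds hz] with z' hz' using hV' k i z' hz'
  have hlc : ∀ (i : Fin N) (y : Fin m' → ℝ), ∀ z ∈ ball (c i) 3,
      ∑ k, (y k : ℂ) • V' k z = lc' V (∑ k, y k • X i k) z := by
    intro i y z hz
    rw [lc'_sum]
    refine Finset.sum_congr rfl fun k _ => ?_
    rw [hV' k i z hz]
  have hopen : IsOpen (Bd c 3) := isOpen_iUnion fun i => isOpen_ball
  have h23 : ∀ k : Fin N, ball (c k) 2 ⊆ ball (c k) 3 := fun k => ball_subset_ball (by norm_num)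
  refine ⟨m', V', ?_, ?_⟩
  · refine ⟨Nat.pos_of_ne_zero hm, ?_, ?_, ?_, ?_, ?_, ?_⟩
    · intro k z hz
      obtain ⟨i, hi⟩ := mem_Bd.1 hz
      have h1 : DifferentiableAt ℂ (lc' V (X i k)) z :=
        (lc'_diff hV.holo (X i k)).differentiableAt (hopen.mem_nhds hz)
      exact ((hVev k i z hi).differentiableAt_iff.2 h1).differentiableWithinAt
    · obtain ⟨B, hB⟩ := hV.bdd
      refine ⟨∑ i, ∑ k, ∑ l, |X i k l| * B, ?_⟩
      intro k z hz
      obtain ⟨i, hi⟩ := mem_Bd.1 hz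
      by_cases hm0 : m = 0
      · subst hm0
        rw [hV' k i z hi]
        unfold lc'
        simp
      have hB0 : 0 ≤ B := (norm_nonneg _).trans (hB ⟨0, Nat.pos_of_ne_zero hm0⟩ z hz)
      rw [hV' k i z hi]
      calc ‖lc' V (X i k) z‖ ≤ ∑ l, ‖(X i k l : ℂ) • V l z‖ := norm_sum_le _ _
        _ ≤ ∑ l, |X i k l| * B := by
            refine Finset.sum_le_sum fun l _ => ?_
            rw [norm_smul, norm_real, Real.norm_eq_abs]
            exact mul_le_mul_of_nonneg_left (hB l z hz) (abs_nonneg _)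
        _ ≤ ∑ k, ∑ l, |X i k l| * B :=
            Finset.single_le_sum (f := fun k => ∑ l, |X i k l| * B)
              (fun k _ => Finset.sum_nonneg fun l _ => mul_nonneg (abs_nonneg _) hB0)
              (Finset.mem_univ k)
        _ ≤ ∑ i, ∑ k, ∑ l, |X i k l| * B :=
            Finset.single_le_sum (f := fun i => ∑ k, ∑ l, |X i k l| * B)
              (fun i _ => Finset.sum_nonneg fun k _ => Finset.sum_nonneg fun l _ =>
                mul_nonneg (abs_nonneg _) hB0)
              (Finset.mem_univ i)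
    · intro i y hy
      have h1 := hV.indep i (∑ k, y k • X i k) fun z hz => by
        have := hy z hz
        rw [hlc i y z hz] at this
        exact this
      exact hXi i y h1
    · intro z hz k l
      obtain ⟨i, hi⟩ := mem_Bd.1 hz
      have hd : ∀ k, DifferentiableAt ℂ (V k) z := fun k =>
        (hV.holo k).differentiableAt (hopen.mem_nhds hz)
      rw [(hVev l i z hi).fderiv_eq, (hVev k i z hi).fderiv_eq, hV' k i z hi, hV' l i z hi,
        lc'_fderiv hd, lc'_fderiv hd]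
      unfold lc'
      simp only [map_sum, map_smul, Finset.smul_sum]
      rw [Finset.sum_comm]
      refine Finset.sum_congr rfl fun p _ => Finset.sum_congr rfl fun q _ => ?_
      rw [hV.comm z hz p q, smul_comm]
    · intro i y
      exact InfGenK.congr (hV.gen i (∑ k, y k • X i k)) fun z hz => hlc i y z hz
    · intro U t hP z hz hz2 hg2
      obtain ⟨i, hi⟩ := mem_Bd.1 hz2
      obtain ⟨j, hj⟩ := mem_Bd.1 hg2
      obtain ⟨A, U', hAd, hU', hzU', hU'U, hAt⟩ := hV.trans U t hP z hz hz2 hg2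
      obtain ⟨hUo, hUR, ⟨hgd, had, hβd⟩, hga⟩ := hA.holo U t hP
      have h1 := arrK hBTK hDIFP hA hper hO hV hP hz hi hj (A := A)
        (by filter_upwards [hU'.mem_nhds hzU'] with z' h using hAt z' h)
      have h2 : ∀ k, ∃ y : Fin m' → ℝ, A.mulVec (X i k) = ∑ l, y l • X j l := fun k =>
        hXs j _ ((h1 _).1 (hX i k))
      choose Y hY using h2
      refine ⟨Matrix.of fun l k => Y k l, U' ∩ (U ∩ t.g ⁻¹' ball (c j) 3) ∩ ball (c i) 3, ?_,
        ?_, ?_, ?_, ?_⟩
      · intro h0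
        obtain ⟨y, hy0, hy⟩ := Matrix.exists_mulVec_eq_zero_iff.2 h0
        apply hy0
        have h3 : A.mulVec (∑ k, y k • X i k) = 0 := by
          rw [Matrix.mulVec_sum]
          have e1 : ∀ k, A.mulVec (y k • X i k) = ∑ l, (y k * Y k l) • X j l := by
            intro k
            rw [Matrix.mulVec_smul, hY k, Finset.smul_sum]
            exact Finset.sum_congr rfl fun l _ => smul_smul _ _ _
          simp_rw [e1]
          rw [Finset.sum_comm]
          refine Finset.sum_eq_zero fun l _ => ?_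
          rw [← Finset.sum_smul]
          have h4 := congrFun hy l
          rw [Matrix.mulVec, dotProduct] at h4
          have h5 : ∑ k, y k * Y k l = 0 := by
            refine Eq.trans ?_ h4
            exact Finset.sum_congr rfl fun k _ => mul_comm _ _
          rw [h5, zero_smul]
        have h4 : ∑ k, y k • X i k = 0 := by
          by_contra hne
          exact hAd (Matrix.exists_mulVec_eq_zero_iff.1 ⟨_, hne, h3⟩)
        exact hXi i y h4
      · exact (hU'.inter (hgd.continuousOn.isOpen_inter_preimage hUo isOpen_ball)).inter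
          isOpen_ball
      · exact ⟨⟨hzU', hz, h23 j hj⟩, h23 i hi⟩
      · exact fun z' h => hU'U h.1.1
      · rintro z' ⟨⟨h3, h4, h5⟩, h6⟩ k
        rw [hV' k i z' h6, push (hAt z' h3), hY k, lc'_sum]
        refine Finset.sum_congr rfl fun l _ => ?_
        rw [hV' l j _ h5]
        rfl
  · intro k i z hz
    rw [hV' k i z (h23 i hz)]
    exact mem_KK.1 (hX i k) z hz

end Pool.Agent.Helper40.RK
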