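import Pool.Agent.Helper36.RK.GoalsG

/-! # RK, Section E, part 1: generalised periods for corank `k`

The statements and proofs are those of `Helper10/SP/GoalsE.lean` (`k = 1`) with `a : ℂ` replaced by the matrix
`A`, `‖a - 1‖ ≤ ε` by `MB (A - 1) ε` and `q = β / a` by `q = A⁻¹ *ᵥ β`. The proved files for `k = 1` are named
in the docstrings: adapt them. Useful: `MB` lemmas in `Helper95/RK/Basics.lean` (`MB.mul`, `MB.add`, `MB.mono`,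
`MB.entry`, `MB.of_entry`); `AFolK.holo` gives `(t.A z).det ≠ 0`, so `t.A z *ᵥ t.q z = t.β z`; `AFolK.abd` gives
`MB (t.A x) C` and `MB (t.A x)⁻¹ C` on `ball (c i) 4` for `BigK` elements; if `MB (A - 1) η` and `MB A⁻¹ C` then
`MB (A⁻¹ - 1) (C * η)` (`A⁻¹ - 1 = A⁻¹ * (1 - A)`). -/

open Complex Metric Set Filter Topology MeasureTheory Matrix
open scoped ContDiff ComplexConjugate

namespace Pool.Agent.Helper40.RK

open Pool.Agent.Helper95.Lin Pool.Agent.Helper10.SP Pool.Agent.Helper95.RK Pool.Agent.Helper36.RK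

/-- Elements near the identity. -/
def NrK {b k N : ℕ} (c : Fin N → Cn b) (P : Set (Cn b) → TriK b k → Prop) (i : Fin N) (ρ ε : ℝ)
    (t : TriK b k) : Prop :=
  BigK c P i t ∧ ∀ z ∈ ball (c i) ρ, ‖t.g z - z‖ ≤ ε ∧ MB (t.A z - 1) ε

/-- NCVK. Near the identity on a small ball implies near the identity on larger balls.
PROOF. As `S_NCV` (file `Helper58/SP/NCV.lean`). Otherwise there is a sequence of `BigK` elements `t_n`,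
`1/(n+1)`-near on `ball x ρ₀` but not `ε`-near on `ball (c i) ρ`. The pairs `(t_n.g, entries of t_n.A)` are uniformly
bounded on `ball (c i) 4` (`lip` and the point of `BigK`, `abd` and `MB.entry`), so by Montel a subsequence converges
uniformly on compact subsets of `ball (c i) 4`; the limit is `(z, 1)` on `ball x ρ₀` and so everywhere (identity
theorem); contradiction on `closedBall (c i) ρ` (`MB.of_entry`: entries at most `ε'` give `MB _ (k ε')`). -/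
def S_NCVK : Prop := ∀ {b k N : ℕ} (c : Fin N → Cn b) (R : ℝ) (P : Set (Cn b) → TriK b k → Prop)
  (Φ : Cn b → ℝ) (Hf : Cn b → Matrix (Fin k) (Fin k) ℂ) (C : ℝ), AFolK c R P Φ Hf C →
  ∀ (i : Fin N) (x : Cn b) (ρ₀ : ℝ), 0 < ρ₀ →
  ball x ρ₀ ⊆ ball (c i) 4 → ∀ ρ < (4 : ℝ), ∀ ε > 0, ∃ η > 0, ∀ t, BigK c P i t →
  (∀ z ∈ ball x ρ₀, ‖t.g z - z‖ ≤ η ∧ MB (t.A z - 1) η) →
  ∀ z ∈ ball (c i) ρ, ‖t.g z - z‖ ≤ ε ∧ MB (t.A z - 1) ε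

/-- NMLK. Products and inverses of elements near the identity. USES: NCVK.
PROOF. As `S_NML` (file `Helper32/SP/NML.lean`). `η` small such that (`NCVK`) both are `δ`-near on `ball (c i) ρ'`,
`ρ < ρ' < 4`. Product: `comp` on `U'' = ball (c i) 1`, then `ext` at `c i` gives `u`, `BigK`; equality on `ball (c i) ρ` by
the identity theorem (`s.g` maps `ball (c i) ρ` into `ball (c i) 4`). Inverse: `inv` at `c i`, `ext` at `t.g (c i)`;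
`u.comp t = one` near `c i`, so on `ball (c i) ρ'`. Each `w ∈ ball (c i) ρ` is `t.g z`, `z ∈ ball (c i) ρ'` (the `SURJ` lemma),
so `u.g w = z`, and the other components. `‖u.g w - w‖ = ‖z - t.g z‖`, `u.A w = (t.A z)⁻¹`. -/
def S_NMLK : Prop := ∀ {b k N : ℕ} (c : Fin N → Cn b) (R : ℝ) (P : Set (Cn b) → TriK b k → Prop)
  (Φ : Cn b → ℝ) (Hf : Cn b → Matrix (Fin k) (Fin k) ℂ) (C : ℝ), AFolK c R P Φ Hf C →
  ∀ (i : Fin N), ∀ ρ < (4 : ℝ), ∀ ε > 0, ∃ η > 0, ∀ t, NrK c P i 3 η t →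
    (∀ s, NrK c P i 3 η s → MapsTo s.g (ball (c i) ρ) (ball (c i) 4) ∧ ∃ u, NrK c P i ρ ε u ∧
      u.EqOn (t.comp s) (ball (c i) ρ)) ∧
    MapsTo t.g (ball (c i) ρ) (ball (c i) 4) ∧ ∃ u, NrK c P i ρ ε u ∧
      MapsTo u.g (ball (c i) ρ) (ball (c i) 4) ∧ (u.comp t).EqOn TriK.one (ball (c i) ρ) ∧
      (t.comp u).EqOn TriK.one (ball (c i) ρ)

/-- NETK. Finite nets.
PROOF. As `S_NET` (file `Helper82/SP/NET.lean`). Otherwise choose inductively `t_0, t_1, …` such that no two are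
`η`-close on `ball (c i) 3`; by Montel the pairs `(t_n.g, entries of t_n.A)` have a subsequence converging uniformly on
`closedBall (c i) 3 ⊆ ball (c i) 4`: contradiction. -/
def S_NETK : Prop := ∀ {b k N : ℕ} (c : Fin N → Cn b) (R : ℝ) (P : Set (Cn b) → TriK b k → Prop)
  (Φ : Cn b → ℝ) (Hf : Cn b → Matrix (Fin k) (Fin k) ℂ) (C : ℝ), AFolK c R P Φ Hf C →
  ∀ (i : Fin N) (A : Set (TriK b k)),
  (∀ t ∈ A, BigK c P i t) → ∀ η > 0, ∃ (n : ℕ) (s : Fin n → TriK b k), (∀ m, s m ∈ A) ∧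
  ∀ t ∈ A, ∃ m, ∀ z ∈ ball (c i) 3, ‖t.g z - (s m).g z‖ ≤ η ∧ MB (t.A z - (s m).A z) η

/-- RETNK. Returns near the identity. USES: NCVK, NETK.
PROOF. As `S_RETN` (file `Helper74/SP/RETN.lean`). `A := {s | BigK c P i s ∧ s.g (c i) ∈ Bd c 1}`. For `w` take by `coc` (at
`z = c i`, point `-w`) and `ext` an element `s_w ∈ A` with `‖s_w.ap (c i) (-w)‖ < 1`. Let `s_1, …, s_n` be a net of `A`
(`NETK`, `η` small). For each `m` let `y_m = (s_m).g (c i) ∈ ball (c j_m) 1` and `r_m` the inverse of `s_m` at `c i` (`inv`, then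
`ext` at `y_m`): `BigK` over `ball (c j_m) 4`, `r_m.comp s_m = one` near `c i`, and so on `V := ball (c i) (2/C)`. Given `w`, let
`s_w` be `η`-close to `s_m` (`η < 1`): `s_w.g (c i) ∈ ball (c j_m) 2`, `‖r_m.g (s_w.g (c i)) - c i‖ ≤ C η < 2`: `comp` and `ext` give
`t`, `BigK c P i t`, `t = r_m.comp s_w` near `c i` and on `ball (c i) (1/C)`. There `‖t.g z - z‖ ≤ C η` and `t.A z =
r_m.A (s_w.g z) * s_w.A z` is close to `r_m.A (s_m.g z) * s_m.A z = 1` (`r_m.A` has Lipschitz entries on `ball (c j_m) 3`, Cauchy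
estimates, the constant depends only on `C`). `NCVK`: `NrK c P i 3 ε t` for `η` small. `t` maps `(c i, -w)` to
`r_m (point with fibre coordinate of norm < 1)`, so `‖t.ap (c i) (-w)‖ ≤ C + max_m sup_{ball (c j_m) 2} ‖r_m.β‖ =: B`, and
`t.q (c i) - w = (t.A)⁻¹ *ᵥ t.ap (c i) (-w)`, `‖t.q (c i) - w‖ ≤ C B`. -/
def S_RETNK : Prop := ∀ {b k N : ℕ} (c : Fin N → Cn b) (R : ℝ) (P : Set (Cn b) → TriK b k → Prop)
  (Φ : Cn b → ℝ) (Hf : Cn b → Matrix (Fin k) (Fin k) ℂ) (C : ℝ), AFolK c R P Φ Hf C →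
  ∀ (i : Fin N), ∀ ε > 0, ∃ B : ℝ, ∀ w : Cn k, ∃ t, NrK c P i 3 ε t ∧ ‖t.q (c i) - w‖ ≤ B

/-- CMPQK. Comparison of the functions `q`. USES: NMLK.
PROOF. As `S_CMPQ` (file `Helper16/SP/CMPQ.lean`). `u` the inverse of `t`, `d := t'.comp u` (an element, `NMLK`, with
radius `7/2`): `t' = d.comp t` on `ball (c i) 3`. `q_{t'}(x) = q_t(x) + (t.A x)⁻¹ *ᵥ q_d(t.g x)`. So `q_d (t.g x) =
t.A x *ᵥ (q_{t'} x - q_t x)`; `bgr` for `d` and the points `t.g x`, `t.g (c i)`, and `abd`. The last item: `bgr`, `abd`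
for `t`. -/
def S_CMPQK : Prop := ∀ {b k N : ℕ} (c : Fin N → Cn b) (R : ℝ) (P : Set (Cn b) → TriK b k → Prop)
  (Φ : Cn b → ℝ) (Hf : Cn b → Matrix (Fin k) (Fin k) ℂ) (C : ℝ), AFolK c R P Φ Hf C →
  ∀ (i : Fin N), ∃ ε₀ > 0, ∃ K : ℝ, ∀ t t',
  NrK c P i 3 ε₀ t → NrK c P i 3 ε₀ t' → ∀ x ∈ ball (c i) 4,
  (x ∈ ball (c i) 3 → ‖t'.q x - t.q x‖ ≤ K * (1 + ‖t'.q (c i) - t.q (c i)‖)) ∧
  ∀ y ∈ ball (c i) 4, ‖t.q x‖ ≤ K * (1 + ‖t.q y‖)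

/-- ADDQK. Near additivity. USES: NCVK, NMLK, CMPQK.
PROOF. As `S_ADDQ` (file `Helper16/SP/ADDQ.lean`). `q_{t' t}(x) = q_t(x) + (t.A x)⁻¹ *ᵥ q_{t'}(t.g x)`. `q_{t'}` is bounded by
`K (1 + ‖q_{t'}(c i)‖)` on `ball (c i) 4`, so by the Cauchy estimates `‖q_{t'}(t.g x) - q_{t'}(x)‖ ≤
K' ‖t.g x - x‖ (1 + ‖q_{t'}(c i)‖)` for `x ∈ ball (c i) 3`, and `MB ((t.A x)⁻¹ - 1) (C η)`. -/
def S_ADDQK : Prop := ∀ {b k N : ℕ} (c : Fin N → Cn b) (R : ℝ) (P : Set (Cn b) → TriK b k → Prop)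
  (Φ : Cn b → ℝ) (Hf : Cn b → Matrix (Fin k) (Fin k) ℂ) (C : ℝ), AFolK c R P Φ Hf C →
  ∀ (i : Fin N), ∀ ε > 0, ∃ η > 0, ∀ t t',
  NrK c P i 3 η t → NrK c P i 3 η t' → ∃ u, NrK c P i 3 ε u ∧ ∀ x ∈ ball (c i) 3,
    ‖u.q x - t.q x - t'.q x‖ ≤ ε * (1 + ‖t'.q (c i)‖)

/-- HYERK. Almost additive maps (Hyers type lemma).
PROOF. As `S_HYER` (file `Helper36/SP/HYER.lean`), with `ℂᵏ` instead of `ℂ`. `(1)` `‖F (n • w) x - n F w x‖ ≤ n (ε ‖w‖ + K)` by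
induction. `(2)` with `n m`: `‖F (n m w)/(n m) - F (m w)/m‖ ≤ ε ‖w‖ + K/m` and symmetric, so `F (n w)/n` is Cauchy, uniformly
in `x`; `Λ` the limit. Letting the multiple go to infinity in (1): `‖Λ w x - F w x‖ ≤ ε ‖w‖ + K`. Additivity: divide the
hypothesis for `n w, n w'` by `n`. `‖Λ w x‖ ≤ K ‖w‖` (from the growth bound), so the additive `Λ · x` is continuous, hence
real linear. -/
def S_HYERK : Prop := ∀ (k : ℕ) (X : Type) (F : Cn k → X → Cn k),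
  (∀ ε > 0, ∃ K : ℝ, ∀ w w' x, ‖F (w + w') x - F w x - F w' x‖ ≤ ε * ‖w'‖ + K) →
  (∃ K : ℝ, ∀ w x, ‖F w x‖ ≤ K * (1 + ‖w‖)) →
  ∃ Λ : Cn k → X → Cn k, (∀ w w' x, Λ (w + w') x = Λ w x + Λ w' x) ∧
    (∀ (r : ℝ) w x, Λ ((r : ℂ) • w) x = (r : ℂ) • Λ w x) ∧
    ∀ ε > 0, ∃ K : ℝ, ∀ w x, ‖F w x - Λ w x‖ ≤ ε * ‖w‖ + K

/-- LAMXK. The real linear family of limits over one ball. USES: RETNK, CMPQK, ADDQK, HYERK.
PROOF. As `S_LAMX` (file `Helper40/SP/LAMX.lean`); see the docstring there. -/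
def S_LAMXK : Prop := ∀ {b k N : ℕ} (c : Fin N → Cn b) (R : ℝ) (P : Set (Cn b) → TriK b k → Prop)
  (Φ : Cn b → ℝ) (Hf : Cn b → Matrix (Fin k) (Fin k) ℂ) (C : ℝ), AFolK c R P Φ Hf C →
  ∀ (i : Fin N), ∃ (Λ : Cn k → Cn b → Cn k) (ε₀ K : ℝ),
  0 < ε₀ ∧ 0 < K ∧ (∀ w w', ∀ x ∈ ball (c i) 3, Λ (w + w') x = Λ w x + Λ w' x) ∧
  (∀ (r : ℝ) w, ∀ x ∈ ball (c i) 3, Λ ((r : ℂ) • w) x = (r : ℂ) • Λ w x) ∧ (∀ w, Λ w (c i) = w) ∧
  (∀ w, DifferentiableOn ℂ (Λ w) (ball (c i) 3)) ∧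
  (∀ w, ∀ x ∈ ball (c i) 3, ‖w‖ ≤ K * ‖Λ w x‖ ∧ ‖Λ w x‖ ≤ K * ‖w‖) ∧
  ∀ ε > 0, ∃ B : ℝ, ∀ t, NrK c P i 3 ε₀ t → ∀ x ∈ ball (c i) 3,
    ‖t.q x - Λ (t.q (c i)) x‖ ≤ ε * ‖t.q (c i)‖ + B

/-- CNJK. Conjugation of elements near the identity. USES: NCVK.
PROOF. As `S_CNJ` (file `Helper59/SP/CNJ.lean`). The inverse germ of `s` at `y = s.g x` is `r` (`inv`), `s.g` is open near `x`;
the germ of `s t r` at `y` belongs to the pseudogroup (`comp`), maps `y` near `y`, so it extends by `ext` to `T`,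
`BigK c P j T`, with `T.comp s = s.comp t` near `x`, and on `ball x e` by the identity theorem (`e` fixed with
`ball x (2e) ⊆ U ∩ ball (c i) 3`, `s.g (ball x (2e)) ⊆ ball (c j) 3`, `η < e`). On `s.g (ball x e)`, which contains a ball
about `y`, `T` is close to the identity: `T.g (s.g z) - s.g z = s.g (t.g z) - s.g z`, `T.A (s.g z) * s.A z =
s.A (t.g z) * t.A z`; `NCVK` for `j`. -/
def S_CNJK : Prop := ∀ {b k N : ℕ} (c : Fin N → Cn b) (R : ℝ) (P : Set (Cn b) → TriK b k → Prop)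
  (Φ : Cn b → ℝ) (Hf : Cn b → Matrix (Fin k) (Fin k) ℂ) (C : ℝ), AFolK c R P Φ Hf C →
  ∀ (i j : Fin N) (U : Set (Cn b)) (s : TriK b k), P U s →
  ∀ x ∈ U, x ∈ ball (c i) 2 → s.g x ∈ ball (c j) 2 → ∃ e > 0, ball x e ⊆ U ∧
    ball x e ⊆ ball (c i) 3 ∧ MapsTo s.g (ball x e) (ball (c j) 3) ∧ ∀ ε > 0, ∃ η > 0, ∀ t,
    NrK c P i 3 η t → MapsTo t.g (ball x e) U ∧ ∃ T, NrK c P j 3 ε T ∧
      (T.comp s).EqOn (s.comp t) (ball x e)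

/-- LTRK. Transformation of the limits. USES: RETNK, LAMXK, CNJK.
PROOF. As `S_LTR` (file `Helper38/SP/LTR.lean`). `η` from `CNJK` for `ε = ε₀`, and `η ≤ ε₀`. For `n ≥ 1` choose `t_n` with
`NrK i 3 η` and `‖q (c i) - n w‖ ≤ B` (`RETNK`); `T_n` from `CNJK`. From `T s = s t`: `q_T (s.g z) = s.A z *ᵥ q_t z +
(T.A (s.g z))⁻¹ *ᵥ s.β (t.g z) - s.β z` on `ball x e`. So `q_{T_n}(s.g z)/n → s.A z *ᵥ Λ_i w z`. With `v_n := q_{T_n}(c j)`: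
`q_{T_n}(y')/n - Λ_j (v_n/n) y' → 0` if `v_n = O(n)`; and `v_n = O(n)` because `‖v_n‖ ≤ K ‖Λ_j v_n y'‖ ≤ K(‖q_{T_n} y'‖ +
ε ‖v_n‖ + B)`, `K ε ≤ 1/2`. So `Λ_j (v_n/n)(s.g z) → s.A z *ᵥ Λ_i w z` for each `z`; by the lower bound `v_n/n` is Cauchy,
limit `w'`, and `Λ_j w' (s.g z) = s.A z *ᵥ Λ_i w z` for all `z ∈ ball x e`. -/
def S_LTRK : Prop := ∀ {b k N : ℕ} (c : Fin N → Cn b) (R : ℝ) (P : Set (Cn b) → TriK b k → Prop)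
  (Φ : Cn b → ℝ) (Hf : Cn b → Matrix (Fin k) (Fin k) ℂ) (C : ℝ), AFolK c R P Φ Hf C →
  ∀ (Λ : Fin N → Cn k → Cn b → Cn k) (ε₀ K : ℝ), 0 < ε₀ →
  0 < K → (∀ i w w', ∀ x ∈ ball (c i) 3, Λ i (w + w') x = Λ i w x + Λ i w' x) →
  (∀ i, ∀ (r : ℝ) w, ∀ x ∈ ball (c i) 3, Λ i ((r : ℂ) • w) x = (r : ℂ) • Λ i w x) →
  (∀ i w, DifferentiableOn ℂ (Λ i w) (ball (c i) 3)) →
  (∀ i w, ∀ x ∈ ball (c i) 3, ‖w‖ ≤ K * ‖Λ i w x‖ ∧ ‖Λ i w x‖ ≤ K * ‖w‖) →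
  (∀ i, ∀ ε > 0, ∃ B : ℝ, ∀ t, NrK c P i 3 ε₀ t → ∀ x ∈ ball (c i) 3,
    ‖t.q x - Λ i (t.q (c i)) x‖ ≤ ε * ‖t.q (c i)‖ + B) →
  ∀ (i j : Fin N) (U : Set (Cn b)) (s : TriK b k), P U s → ∀ x ∈ U, x ∈ ball (c i) 2 →
  s.g x ∈ ball (c j) 2 → ∃ e > 0, ball x e ⊆ U ∧ MapsTo s.g (ball x e) (ball (c j) 3) ∧
    ∀ w, ∃ w', ∀ z ∈ ball x e, s.A z *ᵥ Λ i w z = Λ j w' (s.g z)

end Pool.Agent.Helper40.RK
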